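import Mathlib
import Pool.Agent.V117.MonIdeal
import Pool.Agent.V117.Forest

/-! MP_cb4cd2_al: for every pure simplicial forest `Δ` and every field of characteristic zero the
algebra `A(Δ) = S/(N(Δ) + (x_v^2))` has the strong Lefschetz property. -/

namespace Pool.Agent.Results.MP_cb4cd2_al.ForestSLP

open MvPolynomial Pool.Agent.V117 Pool.Agent.V117.Forest

variable {V : Type*} [Fintype V] [DecidableEq V]

/-- `σ` is a face of the simplicial complex generated by `𝓕`. -/
def IsFace (𝓕 : Finset (Finset V)) (σ : Finset V) : Prop := ∃ F ∈ 𝓕, σ ⊆ F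

/-- two facets are adjacent if they share a vertex -/
def Adj (𝓕 : Finset (Finset V)) (F G : Finset V) : Prop :=
  F ∈ 𝓕 ∧ G ∈ 𝓕 ∧ (F ∩ G).Nonempty

/-- A facet `F` of the complex with set of facets `𝓢` is a leaf if it is the only facet, or some
facet `G ≠ F` satisfies `F ∩ F' ⊆ F ∩ G` for every facet `F' ≠ F`. -/
def IsLeafOf (𝓢 : Finset (Finset V)) (F : Finset V) : Prop :=
  F ∈ 𝓢 ∧ (𝓢 = {F} ∨ ∃ G ∈ 𝓢, G ≠ F ∧ ∀ F' ∈ 𝓢, F' ≠ F → F ∩ F' ⊆ F ∩ G)

/-- The complex with set of facets `𝓕` is a simplicial forest: each nonempty set of facets lying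
in one connected component (that of a facet `F0`) has a leaf. -/
def IsForest (𝓕 : Finset (Finset V)) : Prop :=
  ∀ F0 ∈ 𝓕, ∀ 𝓢 ⊆ 𝓕, 𝓢.Nonempty → (∀ G ∈ 𝓢, Relation.ReflTransGen (Adj 𝓕) F0 G) →
    ∃ F, IsLeafOf 𝓢 F

/-- The ideal `N(Δ) + (x_v^2 : v)`, where `Δ` is the complex generated by `𝓕`. -/
noncomputable def artIdeal (K : Type*) [Field K] (𝓕 : Finset (Finset V)) :
    Ideal (MvPolynomial V K) :=
  Ideal.span ({f | ∃ σ : Finset V, ¬ IsFace 𝓕 σ ∧ f = ∏ v ∈ σ, X v} ∪ {f | ∃ v : V, f = X v ^ 2})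

/-- Multiplication by `P` from degree `i` to degree `k` of `S/I` is injective or surjective. -/
def FullRank {K : Type*} [Field K] (I : Ideal (MvPolynomial V K)) (P : MvPolynomial V K)
    (i k : ℕ) : Prop :=
  (∀ f ∈ homogeneousSubmodule V K i, P * f ∈ I → f ∈ I) ∨
  (∀ g ∈ homogeneousSubmodule V K k, ∃ f ∈ homogeneousSubmodule V K i, g - P * f ∈ I)

/-- the squarefree exponent of a set -/
noncomputable def sq (σ : Finset V) : V →₀ ℕ := ∑ v ∈ σ, Finsupp.single v 1

omit [Fintype V] in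
lemma sq_apply (σ : Finset V) (v : V) : sq σ v = if v ∈ σ then 1 else 0 := by
  unfold sq
  rw [Finsupp.finsetSum_apply]
  simp only [Finsupp.single_apply]
  rw [Finset.sum_ite_eq']

omit [Fintype V] in
lemma sq_inj {σ τ : Finset V} (h : sq σ = sq τ) : σ = τ := by
  ext v
  have := DFunLike.congr_fun h v
  rw [sq_apply, sq_apply] at this
  by_cases h1 : v ∈ σ <;> by_cases h2 : v ∈ τ <;> simp_all

omit [Fintype V] in
lemma sq_support (σ : Finset V) : (sq σ).support = σ := by
  ext v
  rw [Finsupp.mem_support_iff, sq_apply]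
  by_cases h : v ∈ σ <;> simp [h]

omit [Fintype V] [DecidableEq V] in
lemma sq_degree (σ : Finset V) : (sq σ).degree = σ.card := by
  unfold sq
  rw [map_sum]
  simp

omit [Fintype V] in
lemma sq_erase {σ : Finset V} {v : V} (hv : v ∈ σ) :
    sq σ - Finsupp.single v 1 = sq (σ.erase v) := by
  ext w
  rw [Finsupp.tsub_apply, sq_apply, sq_apply, Finsupp.single_apply]
  by_cases h : w = v
  · subst h; simp [hv]
  · simp [h, Ne.symm h]

/-- exponents whose monomials vanish in `A(Δ)` -/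
def bad (𝓕 : Finset (Finset V)) : Set (V →₀ ℕ) := {m | ¬ ∃ σ, IsFace 𝓕 σ ∧ m = sq σ}

omit [Fintype V] in
lemma bad_upper (𝓕 : Finset (Finset V)) : IsUpperSet (bad 𝓕) := by
  intro m m' hmm hm
  rintro ⟨σ, ⟨F, hF, hσ⟩, rfl⟩
  apply hm
  have hle : ∀ v, m v ≤ if v ∈ σ then 1 else 0 := fun v => by
    rw [← sq_apply]
    exact hmm v
  refine ⟨m.support, ⟨F, hF, ?_⟩, ?_⟩
  · intro v hv
    apply hσ
    by_contra h
    have := hle v
    rw [if_neg h] at this
    rw [Finsupp.mem_support_iff] at hv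
    omega
  · ext v
    rw [sq_apply]
    by_cases hv : v ∈ m.support
    · rw [if_pos hv]
      rw [Finsupp.mem_support_iff] at hv
      have := hle v
      split_ifs at this <;> omega
    · rw [if_neg hv]
      rw [Finsupp.mem_support_iff] at hv
      omega

omit [Fintype V] in
lemma prod_X (K : Type*) [Field K] (σ : Finset V) :
    (∏ v ∈ σ, X v : MvPolynomial V K) = monomial (sq σ) 1 := by
  unfold sq
  induction σ using Finset.induction_on with
  | empty => simp
  | insert u σ hu ih =>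
    rw [Finset.prod_insert hu, Finset.sum_insert hu, ih]
    show monomial (Finsupp.single u 1) 1 * _ = _
    rw [monomial_mul, one_mul]

omit [Fintype V] in
lemma artIdeal_eq (K : Type*) [Field K] (𝓕 : Finset (Finset V)) :
    artIdeal K 𝓕 = upIdeal K (bad 𝓕) := by
  apply le_antisymm
  · unfold artIdeal
    rw [Ideal.span_le]
    rintro f (⟨σ, hσ, rfl⟩ | ⟨v, rfl⟩)
    · rw [prod_X]
      refine Ideal.subset_span ⟨sq σ, ?_, rfl⟩
      rintro ⟨τ, hτ, h⟩
      rw [sq_inj h] at hσ
      exact hσ hτ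
    · rw [X_pow_eq_monomial]
      refine Ideal.subset_span ⟨Finsupp.single v 2, ?_, rfl⟩
      rintro ⟨τ, hτ, h⟩
      have := DFunLike.congr_fun h v
      rw [sq_apply, Finsupp.single_eq_same] at this
      split_ifs at this
      all_goals omega
  · unfold upIdeal
    rw [Ideal.span_le]
    rintro _ ⟨m, hm, rfl⟩
    show monomial m (1 : K) ∈ artIdeal K 𝓕
    by_cases h : ∃ v, 2 ≤ m v
    · obtain ⟨v, hv⟩ := h
      have hle : Finsupp.single v 2 ≤ m := by
        rw [Finsupp.single_le_iff]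
        exact hv
      have e : monomial m (1 : K) = monomial (m - Finsupp.single v 2) 1 * X v ^ 2 := by
        rw [X_pow_eq_monomial, monomial_mul, mul_one, tsub_add_cancel_of_le hle]
      rw [e]
      exact Ideal.mul_mem_left _ _ (Ideal.subset_span (Or.inr ⟨v, rfl⟩))
    · have hm1 : m = sq m.support := by
        ext v
        rw [sq_apply]
        by_cases hv : v ∈ m.support
        · rw [if_pos hv]
          rw [Finsupp.mem_support_iff] at hv
          by_contra h'
          exact h ⟨v, by omega⟩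
        · rw [if_neg hv]
          rw [Finsupp.mem_support_iff] at hv
          omega
      refine Ideal.subset_span (Or.inl ⟨m.support, ?_, ?_⟩)
      · intro hf
        exact hm ⟨_, hf, hm1⟩
      · rw [prod_X, ← hm1]

omit [Fintype V] in
lemma mem_artIdeal {K : Type*} [Field K] {𝓕 : Finset (Finset V)} {f : MvPolynomial V K} :
    f ∈ artIdeal K 𝓕 ↔ ∀ σ, IsFace 𝓕 σ → coeff (sq σ) f = 0 := by
  rw [artIdeal_eq, mem_upIdeal (bad_upper 𝓕)]
  constructor
  · intro h σ hσ
    by_contra hc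
    exact h _ (mem_support_iff.2 hc) ⟨σ, hσ, rfl⟩
  · intro h m hm
    rintro ⟨σ, hσ, rfl⟩
    exact (mem_support_iff.1 hm) (h σ hσ)

/-- the linear form with coefficients `a` -/
noncomputable def lin {K : Type*} [Field K] (a : V → K) : MvPolynomial V K :=
  ∑ v, C (a v) * X v

omit [DecidableEq V] in
lemma lin_hom {K : Type*} [Field K] (a : V → K) : (lin a).IsHomogeneous 1 := by
  unfold lin
  apply IsHomogeneous.sum
  intro v _
  have := (isHomogeneous_C V (a v)).mul (isHomogeneous_X K v)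
  rwa [zero_add] at this

lemma coeff_lin_mul {K : Type*} [Field K] (a : V → K) (f : MvPolynomial V K) (σ : Finset V) :
    coeff (sq σ) (lin a * f) = ∑ v ∈ σ, a v * coeff (sq (σ.erase v)) f := by
  unfold lin
  rw [Finset.sum_mul, coeff_sum]
  have : ∀ v ∈ Finset.univ, coeff (sq σ) (C (a v) * X v * f) =
      if v ∈ σ then a v * coeff (sq (σ.erase v)) f else 0 := by
    intro v _
    rw [mul_assoc, coeff_C_mul, coeff_X_mul', sq_support]
    by_cases hv : v ∈ σ
    · rw [if_pos hv, if_pos hv, sq_erase hv]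
    · rw [if_neg hv, if_neg hv, mul_zero]
  rw [Finset.sum_congr rfl this, ← Finset.sum_filter]
  congr 1
  ext v
  simp

/-- normalised coefficient -/
noncomputable def nc {K : Type*} [Field K] (a : V → K) (f : MvPolynomial V K) (σ : Finset V) : K :=
  coeff (sq σ) f / ∏ v ∈ σ, a v

lemma nc_lin_mul {K : Type*} [Field K] (a : V → K) (ha : ∀ v, a v ≠ 0) (f : MvPolynomial V K)
    (σ : Finset V) : nc a (lin a * f) σ = ∑ v ∈ σ, nc a f (σ.erase v) := by
  unfold nc
  rw [coeff_lin_mul, Finset.sum_div]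
  refine Finset.sum_congr rfl fun v hv => ?_
  rw [← Finset.mul_prod_erase _ _ hv, mul_div_mul_left _ _ (ha v)]

lemma nc_pow_mul {K : Type*} [Field K] (a : V → K) (ha : ∀ v, a v ≠ 0) (f : MvPolynomial V K)
    (i : ℕ) : ∀ (j : ℕ) (σ : Finset V), σ.card = i + j →
    nc a (lin a ^ j * f) σ = (j.factorial : K) * ∑ ρ ∈ σ.powersetCard i, nc a f ρ := by
  intro j
  induction j with
  | zero =>
    intro σ hσ
    rw [add_zero] at hσ
    rw [← hσ, Finset.powersetCard_self, Finset.sum_singleton]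
    simp
  | succ j ih =>
    intro σ hσ
    rw [pow_succ', mul_assoc, nc_lin_mul a ha]
    have h1 : ∀ v ∈ σ, nc a (lin a ^ j * f) (σ.erase v) =
        (j.factorial : K) * ∑ ρ ∈ (σ.erase v).powersetCard i, nc a f ρ := by
      intro v hv
      apply ih
      rw [Finset.card_erase_of_mem hv, hσ]
      rfl
    rw [Finset.sum_congr rfl h1, ← Finset.mul_sum, dc, hσ, Nat.factorial_succ]
    have h2 : i + (j + 1) - i = j + 1 := by omega
    rw [h2]
    push_cast
    ring

omit [Fintype V] in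
lemma leaf_of_forest {𝓕 : Finset (Finset V)} (h : IsForest 𝓕) :
    ∀ 𝓢 ⊆ 𝓕, 𝓢.Nonempty → ∃ F, IsLeaf 𝓢 F := by
  classical
  intro 𝓢 hS ⟨F0, hF0⟩
  obtain ⟨F, hF, hL⟩ := h F0 (hS hF0) (𝓢.filter fun G => Relation.ReflTransGen (Adj 𝓕) F0 G)
    ((Finset.filter_subset _ _).trans hS)
    ⟨F0, Finset.mem_filter.2 ⟨hF0, Relation.ReflTransGen.refl⟩⟩
    (fun G hG => (Finset.mem_filter.1 hG).2)
  have hF' := Finset.mem_filter.1 hF
  have hout : ∀ F' ∈ 𝓢, F' ∉ 𝓢.filter (fun G => Relation.ReflTransGen (Adj 𝓕) F0 G) →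
      F ∩ F' = ∅ := by
    intro F' hF1 hF2
    by_contra h'
    apply hF2
    exact Finset.mem_filter.2 ⟨hF1, hF'.2.tail ⟨hS hF'.1, hS hF1,
      Finset.nonempty_iff_ne_empty.2 h'⟩⟩
  refine ⟨F, hF'.1, ?_⟩
  rcases hL with hL | ⟨G, hG, hGF, hL⟩
  · by_cases h1 : 𝓢 = {F}
    · exact Or.inl h1
    · right
      obtain ⟨G, hG, hGF⟩ : ∃ G ∈ 𝓢, G ≠ F := by
        by_contra h2
        push Not at h2
        exact h1 (Finset.eq_singleton_iff_unique_mem.2 ⟨hF'.1, h2⟩)
      refine ⟨G, hG, hGF, fun F' hF1 hF2 => ?_⟩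
      rw [hout F' hF1 (by
        rw [hL, Finset.mem_singleton]
        exact hF2)]
      exact Finset.empty_subset _
  · right
    refine ⟨G, (Finset.mem_filter.1 hG).1, hGF, fun F' hF1 hF2 => ?_⟩
    by_cases h1 : F' ∈ 𝓢.filter (fun G => Relation.ReflTransGen (Adj 𝓕) F0 G)
    · exact hL F' h1 hF2
    · rw [hout F' hF1 h1]
      exact Finset.empty_subset _

/-- The strong Lefschetz property of `A(Δ)` for pure simplicial forests in characteristic zero:
for every linear form `L` with all coefficients nonzero (in particular for `L = ∑ x_v` and for a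
general `L`), all maps `L^j : A_i → A_{i+j}` are injective or surjective. -/
theorem result {V : Type*} [Fintype V] [DecidableEq V] (K : Type*) [Field K] [CharZero K]
    (𝓕 : Finset (Finset V)) (r : ℕ) (hr : ∀ F ∈ 𝓕, F.card = r) (hF : IsForest 𝓕)
    (a : V → K) (ha : ∀ v, a v ≠ 0) (i j : ℕ) :
    FullRank (artIdeal K 𝓕) ((∑ v, C (a v) * X v) ^ j) i (i + j) := by
  classical
  show FullRank (artIdeal K 𝓕) (lin a ^ j) i (i + j)
  have hA : ∀ σ : Finset V, ∏ v ∈ σ, a v ≠ 0 := fun σ => Finset.prod_ne_zero_iff.2 fun v _ => ha v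
  have hj : (j.factorial : K) ≠ 0 := Nat.cast_ne_zero.2 (Nat.factorial_ne_zero j)
  have hdeg : ∀ (f : MvPolynomial V K) (n : ℕ), f.IsHomogeneous n → ∀ σ : Finset V, σ.card ≠ n →
      coeff (sq σ) f = 0 := by
    intro f n hf σ hσ
    by_contra h
    apply hσ
    have h1 := hf h
    rw [← sq_degree σ, ← h1, Finsupp.degree_eq_weight_one]
    rfl
  by_cases hc : i + (i + j) ≤ r
  · left
    intro f hf hL
    rw [mem_homogeneousSubmodule] at hf
    rw [mem_artIdeal] at hL ⊢
    intro σ ⟨F, hFF, hσ⟩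
    by_cases hci : σ.card = i
    · have h1 := inj (K := K) F i (i + j) (by omega) (by rw [hr F hFF]; exact hc) (nc a f) (by
        intro τ hτ hcτ
        have h2 := nc_pow_mul a ha f i j τ hcτ
        have h3 : nc a (lin a ^ j * f) τ = 0 := by
          unfold nc
          rw [hL τ ⟨F, hFF, hτ⟩, zero_div]
        rw [h3] at h2
        exact (mul_eq_zero.1 h2.symm).resolve_left hj) σ hσ hci
      unfold nc at h1
      exact (div_eq_zero_iff.1 h1).resolve_right (hA σ)
    · exact hdeg f i hf σ hci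
  · right
    intro g hg
    rw [mem_homogeneousSubmodule] at hg
    obtain ⟨φ, hφ⟩ := forest_sur (K := K) (r := r) i (i + j) (by omega) (by omega) _ 𝓕 rfl hr
      (leaf_of_forest hF) (fun τ => nc a g τ / (j.factorial : K))
    let f : MvPolynomial V K := ∑ ρ ∈ (Finset.univ : Finset V).powersetCard i,
      monomial (sq ρ) (φ ρ * ∏ v ∈ ρ, a v)
    have hf : f.IsHomogeneous i := by
      apply IsHomogeneous.sum
      intro ρ hρ
      apply isHomogeneous_monomial
      rw [sq_degree]
      exact (Finset.mem_powersetCard.1 hρ).2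
    have hfc : ∀ ρ : Finset V, ρ.card = i → nc a f ρ = φ ρ := by
      intro ρ hρ
      have h1 : coeff (sq ρ) f = φ ρ * ∏ v ∈ ρ, a v := by
        simp only [f, coeff_sum, coeff_monomial]
        rw [Finset.sum_eq_single ρ]
        · rw [if_pos rfl]
        · intro b _ hb
          exact if_neg fun h => hb (sq_inj h)
        · intro h
          exact absurd (Finset.mem_powersetCard.2 ⟨Finset.subset_univ _, hρ⟩) h
      unfold nc
      rw [h1, mul_div_assoc, div_self (hA ρ), mul_one]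
    refine ⟨f, (mem_homogeneousSubmodule _ _).2 hf, ?_⟩
    rw [mem_artIdeal]
    intro τ ⟨F, hFF, hτ⟩
    rw [coeff_sub]
    by_cases hcτ : τ.card = i + j
    · have h1 := nc_pow_mul a ha f i j τ hcτ
      have h2 : ∑ ρ ∈ τ.powersetCard i, nc a f ρ = ∑ ρ ∈ τ.powersetCard i, φ ρ :=
        Finset.sum_congr rfl fun ρ hρ => hfc ρ (Finset.mem_powersetCard.1 hρ).2
      rw [h2, hφ F hFF τ hτ hcτ, mul_div_cancel₀ _ hj] at h1
      unfold nc at h1
      rw [div_left_inj' (hA τ)] at h1
      rw [h1, sub_self]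
    · have hh : (lin a ^ j * f).IsHomogeneous (i + j) := by
        have := ((lin_hom a).pow j).mul hf
        rwa [one_mul, add_comm] at this
      rw [hdeg g _ hg τ hcτ, hdeg _ _ hh τ hcτ, sub_self]

end Pool.Agent.Results.MP_cb4cd2_al.ForestSLP
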